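import Pool.Agent.H43.G.R_pool_sql_team_seeded_f72693b1.W81.R1.Fin
import Pool.Agent.H43.G.R_pool_sql_team_seeded_f72693b1.W81.R1N.FinN
import Pool.Agent.H43.G.R_pool_sql_team_seeded_f72693b1.W81.R1A.Asy

/-!
The prime values of `|n² + a|` for almost all `a` in short intervals.
-/

set_option autoImplicit false

namespace Pool.Agent.W81.R1A

open Finset Filter Polynomial
open Pool.Agent.H442R2.EHI (evt_log_pow evt_log_ge)
open Pool.Agent.H300R2.BH (rho SS pv lF)
open Pool.Agent.W80.EC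
open Pool.Agent.W81.R1 (Good fin)
open Pool.Agent.W81.R1N (finn)

/-- the number of `1 ≤ n ≤ y` with `|n² + a|` prime -/
noncomputable def PC (a : ℤ) (y : ℕ) : ℝ :=
  (((Icc 1 y).filter (fun n : ℕ => Nat.Prime (Int.natAbs ((n : ℤ) ^ 2 + a)))).card : ℝ)

/-- the product over the odd primes below `N` -/
noncomputable def PQ (a : ℤ) (N : ℕ) : ℝ :=
  ∏ w ∈ (range N).filter (fun w : ℕ => Nat.Prime w ∧ 2 < w),
    (1 - ((jacobiSym (-a) w : ℤ) : ℝ) / ((w : ℝ) - 1))

lemma prod_eq (s a D : ℤ) (hs : s = 1 ∨ s = -1) (hD : D = 2 ^ 2 * (-a)) (N : ℕ) :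
    Pc s D N = PQ a N := by
  unfold Pc PQ
  have hset : (range N).filter (fun p : ℕ => Nat.Prime p ∧ 2 < p ∧ ¬ ((p : ℤ) ∣ s)) =
      (range N).filter (fun p : ℕ => Nat.Prime p ∧ 2 < p) := by
    apply filter_congr
    intro p _
    constructor
    · rintro ⟨h1, h2, _⟩
      exact ⟨h1, h2⟩
    · rintro ⟨h1, h2⟩
      refine ⟨h1, h2, fun h => ?_⟩
      have h3 : (p : ℤ) ∣ 1 := by
        rcases hs with rfl | rfl
        · exact h
        · rwa [dvd_neg] at h
      have h4 : p ∣ 1 := by exact_mod_cast h3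
      rw [Nat.dvd_one] at h4
      omega
  rw [hset]
  apply prod_congr rfl
  intro p hp
  rw [mem_filter] at hp
  have hp2 : p ≠ 2 := by omega
  have h2 : (2 : ℤ).gcd p = 1 := by
    have h3 : Nat.Coprime 2 p := (Nat.coprime_primes Nat.prime_two hp.2.1).2 (Ne.symm hp2)
    exact h3
  rw [hD, jacobiSym.mul_left, jacobiSym.sq_one' h2, one_mul]

lemma not_sq {a : ℤ} (h : ¬ IsSquare (-a)) (D : ℤ) (hD : D = 2 ^ 2 * (-a)) : ¬ IsSquare D := by
  intro hcon
  apply h
  rw [hD] at hcon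
  obtain ⟨r, hr⟩ := hcon
  have h2 : (2 : ℤ) ∣ r := by
    have h3 : (2 : ℤ) ∣ r * r := ⟨2 * (-a), by rw [← hr]; ring⟩
    rcases Int.prime_two.dvd_or_dvd h3 with h4 | h4 <;> exact h4
  obtain ⟨s, rfl⟩ := h2
  refine ⟨s, ?_⟩
  have h5 : 4 * (-a) = 4 * (s * s) := by rw [show 4 * (-a) = 2 ^ 2 * (-a) by ring, hr]; ring
  linarith

lemma PC_eq (a : ℤ) (y : ℕ) : PC a y = pv (q2 1 0 a) y + pv (q2 (-1) 0 (-a)) y := by
  unfold PC pv
  rw [← Nat.cast_add, ← card_union_of_disjoint]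
  · congr 2
    ext n
    simp only [mem_filter, mem_union, q2_eval]
    have e1 : (1 : ℤ) * (n : ℤ) ^ 2 + 0 * n + a = (n : ℤ) ^ 2 + a := by ring
    have e2 : (-1 : ℤ) * (n : ℤ) ^ 2 + 0 * n + -a = -((n : ℤ) ^ 2 + a) := by ring
    rw [e1, e2]
    generalize (n : ℤ) ^ 2 + a = v
    constructor
    · rintro ⟨h1, h2⟩
      rcases le_or_gt 0 v with h3 | h3
      · left
        refine ⟨h1, ?_⟩
        have : v.toNat = v.natAbs := by omega
        rwa [this]
      · right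
        refine ⟨h1, ?_⟩
        have : (-v).toNat = v.natAbs := by omega
        rwa [this]
    · rintro (⟨h1, h2⟩ | ⟨h1, h2⟩)
      · refine ⟨h1, ?_⟩
        have h3 := h2.two_le
        have : v.natAbs = v.toNat := by omega
        rwa [this]
      · refine ⟨h1, ?_⟩
        have h3 := h2.two_le
        have : v.natAbs = (-v).toNat := by omega
        rwa [this]
  · rw [disjoint_left]
    intro n h1 h2
    rw [mem_filter, q2_eval] at h1 h2
    have e1 : (1 : ℤ) * (n : ℤ) ^ 2 + 0 * n + a = (n : ℤ) ^ 2 + a := by ring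
    have e2 : (-1 : ℤ) * (n : ℤ) ^ 2 + 0 * n + -a = -((n : ℤ) ^ 2 + a) := by ring
    rw [e1] at h1
    rw [e2] at h2
    have h3 := h1.2.two_le
    have h4 := h2.2.two_le
    omega

lemma LS_eq (a : ℤ) (y : ℕ) : LS a y = lF (q2 1 0 a) y + lF (q2 (-1) 0 (-a)) y := by
  have e1 : ∀ n : ℕ, (q2 1 0 a).eval (n : ℤ) = (n : ℤ) ^ 2 + a := by
    intro n; rw [q2_eval]; ring
  have e2 : ∀ n : ℕ, (q2 (-1) 0 (-a)).eval (n : ℤ) = -((n : ℤ) ^ 2 + a) := by
    intro n; rw [q2_eval]; ring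
  unfold LS lF
  have h1 : (Icc 1 y).filter (fun n : ℕ => 2 ≤ |(n : ℤ) ^ 2 + a|) =
      (Icc 1 y).filter (fun k : ℕ => 2 ≤ (q2 1 0 a).eval (k : ℤ)) ∪
      (Icc 1 y).filter (fun k : ℕ => 2 ≤ (q2 (-1) 0 (-a)).eval (k : ℤ)) := by
    ext n
    simp only [mem_filter, mem_union, e1, e2]
    rw [le_abs]
    tauto
  rw [h1, sum_union]
  · congr 1
    · refine sum_congr rfl fun n hn => ?_
      rw [mem_filter, e1] at hn
      rw [e1, abs_of_nonneg]
      exact_mod_cast (by omega : 0 ≤ (n : ℤ) ^ 2 + a)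
    · refine sum_congr rfl fun n hn => ?_
      rw [mem_filter, e2] at hn
      rw [e2, abs_of_nonpos]
      · push_cast
        rfl
      · exact_mod_cast (by omega : (n : ℤ) ^ 2 + a ≤ 0)
  · rw [disjoint_left]
    intro n h2 h3
    rw [mem_filter, e1] at h2
    rw [mem_filter, e2] at h3
    omega

/-- **the shifts in short intervals** -/
theorem shifts (C U : ℕ) (ε : ℝ) (hε : 0 < ε) : ∃ B : ℕ, ∀ᶠ x : ℕ in atTop, ∀ (a0 : ℤ) (A : ℕ),
    |(a0 : ℝ)| ≤ (x : ℝ) ^ 2 * Real.log x ^ C → x * Real.log x ^ B ≤ A →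
    (A : ℝ) ≤ (x : ℝ) ^ 2 * Real.log x ^ C →
    ∃ Bad : Finset ℤ, (Bad.card : ℝ) ≤ A / Real.log x ^ U ∧
      ∀ a : ℤ, a0 < a → a ≤ a0 + A → a ∉ Bad → ¬ IsSquare (-a) →
        ∃ h : ℝ, 0 < h ∧ Tendsto (fun N : ℕ => PQ a N) atTop (nhds h) ∧
          1 / (4 * Real.log x) ≤ h ∧
          (∀ y : ℕ, y ≤ x → |PC a y - h * LS a y| ≤ h * (x / Real.log x ^ U)) ∧
          ∀ y : ℕ, y ≤ x → (x : ℝ) / Real.log x ^ C ≤ y →
            |PC a y - h / 2 * ∫ t in (2 : ℝ)..y, 1 / Real.log t| ≤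
              ε * (h / 2 * ∫ t in (2 : ℝ)..y, 1 / Real.log t) := by
  set U1 := U + C + 4 with hU1
  set δ := min (ε / 6) (1 / 2) with hδd
  have hδ : 0 < δ := by rw [hδd]; positivity
  have hδ1 : δ ≤ 1 / 2 := min_le_right _ _
  have hδε : δ ≤ ε / 6 := min_le_left _ _
  clear_value δ
  obtain ⟨B1, h1⟩ := fin C U1
  obtain ⟨B2, h2⟩ := finn (C + 1) U1
  refine ⟨max B1 B2, ?_⟩
  filter_upwards [h1, h2, int_asymp C δ hδ (by linarith), sum_asymp C δ hδ (by linarith), evt_log_ge 4,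
    evt_log_ge (4 / δ), eventually_ge_atTop 4] with x hx1 hx2 hint hsum hL4 hLδ hx4 a0 A ha0 hA1 hA2
  set L := Real.log x with hL
  have hL0 : 0 < L := by linarith
  have hL1 : 1 ≤ L := by linarith
  have hp : ∀ n : ℕ, 0 < L ^ n := fun n => by positivity
  have hp1 : ∀ n : ℕ, 1 ≤ L ^ n := fun n => one_le_pow₀ hL1
  have hxr : (4 : ℝ) ≤ x := by exact_mod_cast hx4
  have hx0 : (0 : ℝ) < x := by linarith
  have hLδ' : 4 ≤ δ * L := by
    rw [div_le_iff₀ hδ] at hLδ
    linarith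
  have hone : (1 : ℝ) ≤ (x : ℝ) ^ 2 * L ^ C := by
    have h3 := hp1 C
    have h4 : 1 ≤ (x : ℝ) ^ 2 := one_le_pow₀ (by linarith)
    nlinarith
  obtain ⟨Bad1, hB1, hg1⟩ := hx1 1 0 a0 A le_rfl (by rw [Nat.cast_one]; exact hp1 C)
    (by rw [Int.cast_zero, abs_zero]; positivity) ha0
    (le_trans (by gcongr; exact le_max_left _ _) hA1) hA2
  obtain ⟨Bad2, hB2, hg2⟩ := hx2 1 0 (-a0 - A - 1) A le_rfl (by rw [Nat.cast_one]; exact hp1 (C + 1))
    (by rw [Int.cast_zero, abs_zero]; positivity)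
    (by
      push_cast
      have h3 : |-(a0 : ℝ) - A - 1| ≤ |(a0 : ℝ)| + A + 1 := by
        have h4 := abs_le.1 (le_refl |(a0 : ℝ)|)
        have h5 : (0 : ℝ) ≤ A := Nat.cast_nonneg _
        rw [abs_le]
        constructor <;> linarith
      refine h3.trans ?_
      calc |(a0 : ℝ)| + A + 1 ≤ 4 * ((x : ℝ) ^ 2 * L ^ C) := by linarith
        _ ≤ L * ((x : ℝ) ^ 2 * L ^ C) := by gcongr
        _ = (x : ℝ) ^ 2 * L ^ (C + 1) := by ring)
    (le_trans (by gcongr; exact le_max_right _ _) hA1)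
    (by
      refine hA2.trans ?_
      gcongr
      omega)
  refine ⟨Bad1 ∪ Bad2.image (fun c => -c), ?_, ?_⟩
  · have h3 : ((Bad1 ∪ Bad2.image (fun c => -c)).card : ℝ) ≤ Bad1.card + Bad2.card := by
      have h4 := card_union_le Bad1 (Bad2.image (fun c : ℤ => -c))
      have h5 := card_image_le (s := Bad2) (f := fun c : ℤ => -c)
      exact_mod_cast h4.trans (by omega)
    refine h3.trans ((add_le_add hB1 hB2).trans ?_)
    rw [← add_div, div_le_div_iff₀ (hp _) (hp _)]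
    have h6 : 2 * L ^ U ≤ L ^ U1 := by
      calc 2 * L ^ U ≤ L * L ^ U := by gcongr; linarith
        _ = L ^ (U + 1) := by ring
        _ ≤ L ^ U1 := pow_le_pow_right₀ hL1 (by omega)
    have h7 : (0 : ℝ) ≤ A := Nat.cast_nonneg _
    nlinarith
  · intro a ha1 ha2 haB hsq
    rw [mem_union, not_or] at haB
    have haB2 : -a ∉ Bad2 := by
      intro hcon
      apply haB.2
      rw [mem_image]
      exact ⟨-a, hcon, by ring⟩
    obtain ⟨K, hK, hlim, hlow, hall⟩ := hg1 a (mem_Ioc.2 ⟨ha1, ha2⟩) haB.1 (by simp)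
      (not_sq hsq _ (by push_cast; ring)) (by
        rintro ⟨h3, _⟩
        revert h3
        decide)
    obtain ⟨K', hK', hlim', hlow', hall'⟩ := hg2 (-a) (by rw [mem_Ioc]; constructor <;> omega) haB2
      (by simp) (not_sq hsq _ (by push_cast; ring)) (by
        rintro ⟨h3, _⟩
        revert h3
        decide)
    have el : ∀ N : ℕ, Pc (((1 : ℕ) : ℤ)) (0 ^ 2 - 4 * ((1 : ℕ) : ℤ) * a) N = PQ a N :=
      fun N => prod_eq _ a _ (Or.inl (by simp)) (by push_cast; ring) N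
    have el' : ∀ N : ℕ, Pc (-((1 : ℕ) : ℤ)) ((-0) ^ 2 - 4 * (-((1 : ℕ) : ℤ)) * (-a)) N = PQ a N :=
      fun N => prod_eq _ a _ (Or.inr (by simp)) (by push_cast; ring) N
    simp_rw [el] at hlim
    simp_rw [el'] at hlim'
    have hKK : K' = K := tendsto_nhds_unique hlim' hlim
    subst hKK
    have c1 : ep (((1 : ℕ) : ℤ)) 0 * K' * Gf (((1 : ℕ) : ℤ)) 0 = K' := by
      have hep : ep (((1 : ℕ) : ℤ)) 0 = 1 := by
        unfold ep; rw [if_neg]; decide
      have hGf : Gf (((1 : ℕ) : ℤ)) 0 = 1 := by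
        unfold Gf
        have : Int.gcd (((1 : ℕ) : ℤ)) 0 = 1 := by decide
        rw [this, Nat.primeFactors_one, filter_empty, prod_empty]
      rw [hep, hGf, one_mul, mul_one]
    have c2 : ep (-((1 : ℕ) : ℤ)) (-0) * K' * Gf (-((1 : ℕ) : ℤ)) (-0) = K' := by
      have hep : ep (-((1 : ℕ) : ℤ)) (-0) = 1 := by
        unfold ep; rw [if_neg]; decide
      have hGf : Gf (-((1 : ℕ) : ℤ)) (-0) = 1 := by
        unfold Gf
        have : Int.gcd (-((1 : ℕ) : ℤ)) (-0) = 1 := by decide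
        rw [this, Nat.primeFactors_one, filter_empty, prod_empty]
      rw [hep, hGf, one_mul, mul_one]
    rw [c1] at hlow hall
    rw [c2] at hall'
    have q1 : q2 (((1 : ℕ) : ℤ)) 0 a = q2 1 0 a := by norm_num
    have q2' : q2 (-((1 : ℕ) : ℤ)) (-0) (-a) = q2 (-1) 0 (-a) := by norm_num
    rw [q1] at hall
    rw [q2'] at hall'
    have hmain : ∀ y : ℕ, y ≤ x → |PC a y - K' * LS a y| ≤ K' * (2 * (x / L ^ (U1 + 1))) := by
      intro y hy
      have h3 := hall y hy
      have h4 := hall' y hy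
      have e3 : PC a y - K' * LS a y = (pv (q2 1 0 a) y - K' * lF (q2 1 0 a) y) +
          (pv (q2 (-1) 0 (-a)) y - K' * lF (q2 (-1) 0 (-a)) y) := by
        rw [PC_eq, LS_eq]; ring
      rw [e3]
      refine (abs_add_le _ _).trans ((add_le_add h3 h4).trans (le_of_eq ?_))
      ring
    refine ⟨K', hK', hlim, hlow, fun y hy => ?_, fun y hy hylo => ?_⟩
    · refine (hmain y hy).trans ?_
      apply mul_le_mul_of_nonneg_left _ hK'.le
      rw [mul_div_assoc', div_le_div_iff₀ (hp _) (hp _)]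
      have h6 : 2 * L ^ U ≤ L ^ (U1 + 1) := by
        calc 2 * L ^ U ≤ L * L ^ U := by gcongr; linarith
          _ = L ^ (U + 1) := by ring
          _ ≤ L ^ (U1 + 1) := pow_le_pow_right₀ hL1 (by omega)
      nlinarith
    · have h3 := hmain y hy
      have haa : |(a : ℝ)| ≤ 2 * ((x : ℝ) ^ 2 * L ^ C) := by
        have h4 : |a| ≤ |a0| + A := by
          have := abs_le.1 (le_refl |a0|)
          rw [abs_le]
          constructor <;> linarith
        have h5 : (|a| : ℝ) ≤ |(a0 : ℝ)| + A := by exact_mod_cast h4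
        linarith
      have h4 := hsum a y haa hy hylo
      have h5 := hint y hy hylo
      set I := ∫ t in (2 : ℝ)..y, 1 / Real.log t with hI
      have hy0 : (0 : ℝ) < y := lt_of_lt_of_le (by positivity) hylo
      have hyL : 0 < (y : ℝ) / L := by positivity
      have hxy : (x : ℝ) ≤ y * L ^ C := by rwa [div_le_iff₀ (hp _)] at hylo
      have h6 : 2 * (x / L ^ (U1 + 1)) ≤ δ * (y / (2 * L)) := by
        rw [mul_div_assoc', mul_div_assoc', div_le_div_iff₀ (hp _) (by positivity)]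
        calc 2 * (x : ℝ) * (2 * L) ≤ 2 * (y * L ^ C) * (2 * L) := by gcongr
          _ = 4 * y * L ^ (C + 1) := by ring
          _ ≤ (δ * L) * y * L ^ (C + 1) := by gcongr
          _ = δ * y * L ^ (C + 2) := by ring
          _ ≤ δ * y * L ^ (U1 + 1) := by
              apply mul_le_mul_of_nonneg_left _ (by positivity)
              exact pow_le_pow_right₀ hL1 (by omega)
      have e1 : (y : ℝ) / (2 * L) = y / L / 2 := by rw [div_div, mul_comm]
      rw [e1] at h4 h6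
      have h7 : PC a y - K' / 2 * I = (PC a y - K' * LS a y) + K' * (LS a y - y / L / 2) +
          K' / 2 * (y / L - I) := by ring
      rw [h7]
      have hI1 : (1 - δ) * (y / L) ≤ I := by
        have := (abs_le.1 h5).1
        linarith
      have hI2 : (y : ℝ) / L ≤ 2 * I := by
        have h8 : (1 / 2 : ℝ) * (y / L) ≤ (1 - δ) * (y / L) := by gcongr; linarith
        linarith
      have hI0 : 0 < I := by linarith
      have b1 : |PC a y - K' * LS a y| ≤ K' * (δ * (y / L / 2)) := h3.trans (by gcongr)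
      have b2 : |K' * (LS a y - y / L / 2)| ≤ K' * (δ * (y / L / 2)) := by
        rw [abs_mul, abs_of_pos hK']
        exact mul_le_mul_of_nonneg_left h4 hK'.le
      have b3 : |K' / 2 * (y / L - I)| ≤ K' / 2 * (δ * (y / L)) := by
        rw [abs_mul, abs_of_pos (by positivity), abs_sub_comm]
        exact mul_le_mul_of_nonneg_left h5 (by positivity)
      refine (abs_add_three _ _ _).trans ((add_le_add (add_le_add b1 b2) b3).trans ?_)
      calc K' * (δ * (y / L / 2)) + K' * (δ * (y / L / 2)) + K' / 2 * (δ * (y / L)) =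
            K' * (3 / 2) * (δ * (y / L)) := by ring
        _ ≤ K' * (3 / 2) * (ε / 6 * (2 * I)) := by gcongr
        _ = ε * (K' / 2 * I) := by ring

end Pool.Agent.W81.R1A
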